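import Pool.Agent.H29.LG.Targets

/-!
# Row MINK of the board lgx_modules

The conjugates over the large level fields.
-/

set_option autoImplicit false

namespace Pool.Agent.H13.LG

open NumberField Height Finset Polynomial Pool.Agent.H24.RD Pool.Agent.H23.RDD Pool.Agent.H29.RQ
  Pool.Agent.H29.SX Pool.Agent.H29.LG

theorem pf_MINK (h : T_LVB) : T_MINK := by
  intro F Ω _ _ _ _ _ _ _ r γ hγ N K d β g E hN hK hβ hE hCj hRed hg hmin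
  classical
  obtain ⟨s, hs1, hs2⟩ := hCj
  have hK0 : 0 < K := Nat.pos_of_dvd_of_pos hK hN
  refine ⟨s.filter (fun y => ∃ σ : Ω ≃ₐ[F] Ω, (∀ z ∈ E, σ z = z) ∧ σ β = y),
    (Finset.card_filter_le _ _).trans hs1, ?_, ?_⟩
  · intro σ hσ
    rw [Finset.mem_filter]
    exact ⟨hs2 σ hσ, σ, hσ, rfl⟩
  · intro N₂ hN₂ hNN y hy
    have hle : Lv F Ω γ N K ≤ Lv F Ω γ N₂ K :=
      (h F Ω r γ hγ N K hN hK0).2.2.2.2.2 N₂ K hNN dvd_rfl (hK.trans hNN) hN₂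
    have hfix : ∀ σ : Ω ≃ₐ[F] Ω, (∀ z ∈ Lv F Ω γ N₂ K, σ z = z) → ∀ z ∈ E, σ z = z :=
      fun σ hσ z hz => hσ z (hle (hE hz))
    set X := s.filter (fun y => ∃ σ : Ω ≃ₐ[F] Ω, (∀ z ∈ E, σ z = z) ∧ σ β = y) with hX
    set Y := X.filter (fun y => ∃ σ : Ω ≃ₐ[F] Ω, (∀ z ∈ Lv F Ω γ N₂ K, σ z = z) ∧ σ β = y) with hY
    have hC : Cj F Ω (Lv F Ω γ N₂ K) Y.card β := by
      refine ⟨Y, le_rfl, fun σ hσ => ?_⟩
      rw [hY, Finset.mem_filter, hX, Finset.mem_filter]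
      exact ⟨⟨hs2 σ (hfix σ hσ), σ, hfix σ hσ, rfl⟩, σ, hσ, rfl⟩
    have hR : Red F Ω (Lv F Ω γ N₂ K) β := fun σ hσ => hRed σ (hfix σ hσ)
    have hd : d ≤ Y.card := hmin N₂ Y.card hN₂ (hK.trans hNN) ⟨β, hβ, hC, hR, g, hg, rfl⟩
    have hYX : Y = X := Finset.eq_of_subset_of_card_le (Finset.filter_subset _ _)
      (((Finset.card_filter_le _ _).trans hs1).trans hd)
    rw [← hYX, hY, Finset.mem_filter] at hy
    exact hy.2

end Pool.Agent.H13.LG
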